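import Pool.Agent.helper48.PR.SpecL

set_option autoImplicit false

namespace Pool.Agent.PR

open Matrix

/-- Congruence density is profinite density. -/
theorem LPD (hC : CSP_stmt) : LPD_stmt := by
  intro n hn H hH N hN hF
  obtain ⟨m, hm, hk⟩ := hC n hn N hN hF
  rw [eq_top_iff]
  intro γ _
  obtain ⟨h, hh, hc⟩ := hH m hm γ
  have h1 : Matrix.SpecialLinearGroup.map (n := Fin n) (Int.castRingHom (ZMod m)) h =
      Matrix.SpecialLinearGroup.map (n := Fin n) (Int.castRingHom (ZMod m)) γ := by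
    apply Subtype.ext
    ext i j
    show ((h i j : ℤ) : ZMod m) = ((γ i j : ℤ) : ZMod m)
    have h2 := hc i j
    have h3 : ((h i j : ℤ) : ZMod m) - ((γ i j : ℤ) : ZMod m) = 0 := by
      rw [← Int.cast_sub]
      exact (ZMod.intCast_zmod_eq_zero_iff_dvd _ _).mpr h2
    exact sub_eq_zero.mp h3
  have h4 : h⁻¹ * γ ∈ N := by
    apply hk
    rw [MonoidHom.mem_ker, map_mul, map_inv, h1, inv_mul_cancel]
  have h5 : γ = h * (h⁻¹ * γ) := by rw [mul_inv_cancel_left]
  rw [h5]
  exact Subgroup.mul_mem_sup hh h4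

end Pool.Agent.PR
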