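import Pool.Agent.helper48.PR.SpecC

set_option autoImplicit false

namespace Pool.Agent.PR

open Matrix

theorem C10_exp {n : ℕ} {F : Type} [Field F] [CharZero F] (A : Matrix (Fin n) (Fin n) F)
    (hA : A * A = 0) : IsNilpotent.exp A = 1 + A := by
  have h2 : A ^ 2 = 0 := by rw [pow_two, hA]
  rw [IsNilpotent.exp_eq_sum h2]
  simp [Finset.sum_range_succ]

/-- The core computation: if the elements `U` satisfy the conjugation rule then they are scalar
multiples of `1 + M`. -/
theorem C10_scalar {n : ℕ} {F : Type} [Field F] (A R : Matrix (Fin n) (Fin n) F)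
    (M : Fin n → Fin n → Matrix (Fin n) (Fin n) F) (x y : Matrix (Fin n) (Fin n) F)
    (hxy : x * y = 1) (hyx : y * x = 1) (hA : A * A = 0)
    (hM : (∀ i j, i ≠ j → M i j = x * Matrix.single i j 1 * y) ∨
      (∀ i j, i ≠ j → M i j = -(x * Matrix.single j i 1 * y)))
    (hR : ∀ l m, l ≠ m → R * M l m = (1 + A) * M l m * (1 - A) * R) :
    ∃ c : F, R = c • (1 + A) := by
  have h1 : (1 - A) * (1 + A) = 1 := by
    rw [sub_mul, mul_add, mul_add, hA]
    simp
  have h2 : (1 + A) * (1 - A) = 1 := by
    rw [add_mul, mul_sub, mul_sub, hA]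
    simp
  have h3 : ∀ l m, l ≠ m → ((1 - A) * R) * M l m = M l m * ((1 - A) * R) := by
    intro l m hlm
    rw [mul_assoc, hR l m hlm]
    calc (1 - A) * ((1 + A) * M l m * (1 - A) * R)
        = ((1 - A) * (1 + A)) * M l m * (1 - A) * R := by simp only [mul_assoc]
      _ = M l m * ((1 - A) * R) := by rw [h1, one_mul, mul_assoc]
  have h4 : ∀ l m, l ≠ m → Commute (Matrix.single l m (1 : F)) (y * ((1 - A) * R) * x) := by
    have key : ∀ l m, l ≠ m → ((1 - A) * R) * (x * Matrix.single l m (1 : F) * y) =
        (x * Matrix.single l m (1 : F) * y) * ((1 - A) * R) := by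
      intro l m hlm
      rcases hM with hM | hM
      · rw [← hM l m hlm]
        exact h3 l m hlm
      · have h5 := h3 m l hlm.symm
        rw [hM m l hlm.symm, mul_neg, neg_mul] at h5
        exact neg_injective h5
    intro l m hlm
    show Matrix.single l m (1 : F) * (y * ((1 - A) * R) * x) =
      (y * ((1 - A) * R) * x) * Matrix.single l m (1 : F)
    calc Matrix.single l m (1 : F) * (y * ((1 - A) * R) * x)
        = (y * x) * Matrix.single l m (1 : F) * (y * ((1 - A) * R) * x) := by
          rw [hyx, one_mul]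
      _ = y * ((x * Matrix.single l m (1 : F) * y) * ((1 - A) * R)) * x := by
          simp only [mul_assoc]
      _ = y * (((1 - A) * R) * (x * Matrix.single l m (1 : F) * y)) * x := by
          rw [key l m hlm]
      _ = (y * ((1 - A) * R) * x) * Matrix.single l m (1 : F) * (y * x) := by
          simp only [mul_assoc]
      _ = (y * ((1 - A) * R) * x) * Matrix.single l m (1 : F) := by rw [hyx, mul_one]
  obtain ⟨c, hc⟩ := Matrix.mem_range_scalar_of_commute_single
    (M := y * ((1 - A) * R) * x) (fun l m hlm => h4 l m hlm)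
  refine ⟨c, ?_⟩
  have h5 : (1 - A) * R = c • (1 : Matrix (Fin n) (Fin n) F) := by
    calc (1 - A) * R = (x * y) * ((1 - A) * R) * (x * y) := by rw [hxy, one_mul, mul_one]
      _ = x * (y * ((1 - A) * R) * x) * y := by simp only [mul_assoc]
      _ = x * (Matrix.scalar (Fin n) c) * y := by rw [hc]
      _ = c • (1 : Matrix (Fin n) (Fin n) F) := by
          rw [Matrix.scalar_apply, ← Matrix.smul_one_eq_diagonal, mul_smul_comm, mul_one,
            smul_mul_assoc, hxy]
  calc R = ((1 + A) * (1 - A)) * R := by rw [h2, one_mul]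
    _ = (1 + A) * ((1 - A) * R) := by rw [mul_assoc]
    _ = c • (1 + A) := by rw [h5, mul_smul_comm, mul_one]

theorem C10_mul {n : ℕ} {F : Type} [Field F] (x y : Matrix (Fin n) (Fin n) F)
    (hyx : y * x = 1) (E E' : Matrix (Fin n) (Fin n) F) :
    (x * E * y) * (x * E' * y) = x * (E * E') * y := by
  calc (x * E * y) * (x * E' * y) = x * E * (y * x) * E' * y := by simp only [mul_assoc]
    _ = x * (E * E') * y := by rw [hyx, mul_one]; simp only [mul_assoc]

/-- `r (el i j 1) = 1 + M i j`. -/
theorem C10 : C10_stmt := by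
  intro n hn F _ _ r M x y hxy hyx hM hR
  have hsq : ∀ i j, i ≠ j → M i j * M i j = 0 := by
    intro i j hij
    rcases hM with hM | hM
    · rw [hM i j hij, C10_mul x y hyx, Matrix.single_mul_single_of_ne _ _ _ _ hij.symm]
      simp
    · rw [hM i j hij, neg_mul_neg, C10_mul x y hyx, Matrix.single_mul_single_of_ne _ _ _ _ hij]
      simp
  have hcomm : ∀ i j l, i ≠ j → j ≠ l → i ≠ l → (1 + M i j) * (1 + M j l) =
      (1 + M i l) * (1 + M j l) * (1 + M i j) := by
    intro i j l hij hjl hil
    rcases hM with hM | hM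
    · have e1 : M i j * M j l = M i l := by
        rw [hM i j hij, hM j l hjl, hM i l hil, C10_mul x y hyx,
          Matrix.single_mul_single_same, mul_one]
      have e2 : M j l * M i j = 0 := by
        rw [hM i j hij, hM j l hjl, C10_mul x y hyx, Matrix.single_mul_single_of_ne _ _ _ _ hil.symm]
        simp
      have e3 : M i l * M j l = 0 := by
        rw [hM i l hil, hM j l hjl, C10_mul x y hyx, Matrix.single_mul_single_of_ne _ _ _ _ hjl.symm]
        simp
      have e4 : M i l * M i j = 0 := by
        rw [hM i l hil, hM i j hij, C10_mul x y hyx, Matrix.single_mul_single_of_ne _ _ _ _ hil.symm]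
        simp
      have e5 : M i l * M j l * M i j = 0 := by rw [e3, zero_mul]
      simp only [add_mul, mul_add, one_mul, mul_one, e1, e2, e3, e4, zero_mul, add_zero]
      abel
    · have e1 : M i j * M j l = 0 := by
        rw [hM i j hij, hM j l hjl, neg_mul_neg, C10_mul x y hyx,
          Matrix.single_mul_single_of_ne _ _ _ _ hil]
        simp
      have e2 : M j l * M i j = - M i l := by
        rw [hM i j hij, hM j l hjl, hM i l hil, neg_mul_neg, C10_mul x y hyx,
          Matrix.single_mul_single_same, mul_one, neg_neg]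
      have e3 : M i l * M j l = 0 := by
        rw [hM i l hil, hM j l hjl, neg_mul_neg, C10_mul x y hyx,
          Matrix.single_mul_single_of_ne _ _ _ _ hil]
        simp
      have e4 : M i l * M i j = 0 := by
        rw [hM i l hil, hM i j hij, neg_mul_neg, C10_mul x y hyx,
          Matrix.single_mul_single_of_ne _ _ _ _ hij]
        simp
      simp only [add_mul, mul_add, one_mul, mul_one, e1, e2, e3, e4, zero_mul, add_zero]
      abel
  have hsc : ∀ (i j : Fin n) (h : i ≠ j), ∃ c : F, r (el i j h 1) = c • (1 + M i j) := by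
    intro i j h
    refine C10_scalar (M i j) (r (el i j h 1)) M x y hxy hyx (hsq i j h) hM ?_
    intro l m hlm
    have h1 := hR i j h l m hlm
    have h2 : (-M i j) * (-M i j) = 0 := by rw [neg_mul_neg, hsq i j h]
    rw [C10_exp _ (hsq i j h), C10_exp _ h2, ← sub_eq_add_neg] at h1
    exact h1
  have hne : ∀ g : SLZ n, r g ≠ 0 := by
    intro g hg
    have h1 : r g * r g⁻¹ = 1 := by rw [← map_mul, mul_inv_cancel, map_one]
    rw [hg, zero_mul] at h1
    have h2 := congrFun (congrFun h1 ⟨0, by omega⟩) ⟨0, by omega⟩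
    rw [Matrix.one_apply_eq] at h2
    exact zero_ne_one h2
  intro i l hil
  obtain ⟨j, hji, hjl⟩ : ∃ j : Fin n, j ≠ i ∧ j ≠ l := by
    have h1 : ∃ j : Fin n, j ∉ ({i, l} : Finset (Fin n)) := by
      by_contra hcon
      push Not at hcon
      have h2 : Fintype.card (Fin n) ≤ ({i, l} : Finset (Fin n)).card := by
        rw [← Finset.card_univ]
        exact Finset.card_le_card (fun j _ => hcon j)
      rw [Fintype.card_fin] at h2
      have h3 := Finset.card_le_two (a := i) (b := l)
      omega
    obtain ⟨j, hj⟩ := h1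
    rw [Finset.mem_insert, Finset.mem_singleton] at hj
    push Not at hj
    exact ⟨j, hj.1, hj.2⟩
  obtain ⟨c1, h1⟩ := hsc i j hji.symm
  obtain ⟨c2, h2⟩ := hsc j l hjl
  obtain ⟨c3, h3⟩ := hsc i l hil
  have h4 := congrArg r (el_commutator hji.symm hjl hil 1 1)
  rw [map_mul, map_mul, map_mul, mul_one] at h4
  have h5 := hcomm i j l hji.symm hjl hil
  rw [h1, h2, h3] at h4
  have hc1 : c1 ≠ 0 := by
    rintro rfl
    rw [zero_smul] at h1
    exact hne _ h1
  have hc2 : c2 ≠ 0 := by
    rintro rfl
    rw [zero_smul] at h2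
    exact hne _ h2
  have h6 : (c1 * c2) • ((1 + M i j) * (1 + M j l)) =
      (c3 * (c1 * c2)) • ((1 + M i j) * (1 + M j l)) := by
    have e1 : (c1 • (1 + M i j)) * (c2 • (1 + M j l)) =
        (c1 * c2) • ((1 + M i j) * (1 + M j l)) := by
      rw [smul_mul_smul_comm]
    have e2 : (c3 • (1 + M i l)) * (c2 • (1 + M j l)) * (c1 • (1 + M i j)) =
        (c3 * (c1 * c2)) • ((1 + M i j) * (1 + M j l)) := by
      rw [smul_mul_smul_comm, smul_mul_smul_comm, h5]
      congr 1
      ring
    rw [e1, e2] at h4
    exact h4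
  have hX : (1 + M i j) * (1 + M j l) ≠ 0 := by
    intro h0
    have h7 : r (el i j hji.symm 1) * r (el j l hjl 1) = 0 := by
      rw [h1, h2, smul_mul_smul_comm, h0, smul_zero]
    rw [← map_mul] at h7
    exact hne _ h7
  have h7 : c3 = 1 := by
    have h8 : (c1 * c2) = (c3 * (c1 * c2)) := smul_left_injective F hX h6
    have h9 : c1 * c2 ≠ 0 := mul_ne_zero hc1 hc2
    have h10 : (c3 - 1) * (c1 * c2) = 0 := by rw [sub_mul, one_mul, ← h8, sub_self]
    rcases mul_eq_zero.mp h10 with h11 | h11
    · exact sub_eq_zero.mp h11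
    · exact absurd h11 h9
  rw [h3, h7, one_smul]

end Pool.Agent.PR
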