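import Pool.Agent.helper48.PR.SpecH

set_option autoImplicit false

namespace Pool.Agent.PR

/-- `e ↦ Mop X Y e` as a linear map. -/
def HM_L {F V : Type} [Field F] [AddCommGroup V] [Module F V] {m : ℕ} (X Y : Fin m → Module.End F V) :
    ((Fin m → F) × (Fin m → F)) →ₗ[F] Module.End F V where
  toFun e := Mop X Y e
  map_add' := by
    intro e e'
    unfold Mop
    rw [← Finset.sum_add_distrib]
    apply Finset.sum_congr rfl
    intro i _
    simp only [Prod.fst_add, Prod.snd_add, Pi.add_apply, add_smul]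
    abel
  map_smul' := by
    intro c e
    unfold Mop
    rw [Finset.smul_sum]
    apply Finset.sum_congr rfl
    intro i _
    simp only [Prod.smul_fst, Prod.smul_snd, Pi.smul_apply, smul_eq_mul, mul_smul, smul_add,
      RingHom.id_apply]

theorem HM_L_apply {F V : Type} [Field F] [AddCommGroup V] [Module F V] {m : ℕ}
    (X Y : Fin m → Module.End F V) (e : (Fin m → F) × (Fin m → F)) : HM_L X Y e = Mop X Y e := rfl

/-- the operators commute with `Z` -/
theorem HM_comm {F V : Type} [Field F] [AddCommGroup V] [Module F V] {m : ℕ}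
    {X Y : Fin m → Module.End F V} {Z : Module.End F V} (h : LH X Y Z)
    (e : (Fin m → F) × (Fin m → F)) (u : V) : Mop X Y e (Z u) = Z (Mop X Y e u) := by
  have h1 : Mop X Y e * Z = Z * Mop X Y e := by
    unfold Mop
    rw [Finset.sum_mul, Finset.mul_sum]
    apply Finset.sum_congr rfl
    intro i _
    rw [add_mul, mul_add, smul_mul_assoc, smul_mul_assoc, mul_smul_comm, mul_smul_comm, h.xz i,
      h.yz i]
  have h2 := LinearMap.congr_fun h1 u
  exact h2

theorem HM_om_self {F : Type} [Field F] {m : ℕ} (e : (Fin m → F) × (Fin m → F)) : om e e = 0 := by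
  unfold om
  apply Finset.sum_eq_zero
  intro i _
  ring

theorem HM_om_neg {F : Type} [Field F] {m : ℕ} (e e' : (Fin m → F) × (Fin m → F)) :
    om e e' = - om e' e := by
  unfold om
  rw [← Finset.sum_neg_distrib]
  apply Finset.sum_congr rfl
  intro i _
  ring

theorem HM_om_lin {F : Type} [Field F] {m : ℕ} (e e' e'' : (Fin m → F) × (Fin m → F)) (c : F) :
    om e (e' + c • e'') = om e e' + c * om e e'' := by
  unfold om
  rw [Finset.mul_sum, ← Finset.sum_add_distrib]
  apply Finset.sum_congr rfl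
  intro i _
  simp only [Prod.fst_add, Prod.snd_add, Pi.add_apply, Prod.smul_fst, Prod.smul_snd, Pi.smul_apply,
    smul_eq_mul]
  ring

theorem HM_om_lin' {F : Type} [Field F] {m : ℕ} (e e' e'' : (Fin m → F) × (Fin m → F)) (c : F) :
    om (e' + c • e'') e = om e' e + c * om e'' e := by
  rw [HM_om_neg, HM_om_lin, HM_om_neg e e', HM_om_neg e e'']
  ring

/-- dimension count -/
theorem HM_count {F E U : Type} [Field F] [AddCommGroup E] [Module F E] [FiniteDimensional F E]
    [AddCommGroup U] [Module F U] [FiniteDimensional F U] (T : E →ₗ[F] U) (R : Submodule F U)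
    (hR : ∀ e, T e ∈ R) :
    Module.finrank F E ≤ Module.finrank F (LinearMap.ker T) + Module.finrank F R := by
  have h1 := LinearMap.finrank_range_add_finrank_ker T
  have h2 : Module.finrank F (LinearMap.range T) ≤ Module.finrank F R := by
    apply Submodule.finrank_mono
    rintro _ ⟨e, rfl⟩
    exact hR e
  omega

/-- dimension of `K / W` -/
theorem HM_quot {F V : Type} [Field F] [AddCommGroup V] [Module F V] [FiniteDimensional F V]
    (W K : Submodule F V) (h : W ≤ K) :
    Module.finrank F (Submodule.map W.mkQ K) + Module.finrank F W = Module.finrank F K := by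
  have h1 := LinearMap.finrank_range_add_finrank_ker (W.mkQ ∘ₗ K.subtype)
  have h2 : LinearMap.range (W.mkQ ∘ₗ K.subtype) = Submodule.map W.mkQ K := by
    rw [LinearMap.range_comp, Submodule.range_subtype]
  have h3 : LinearMap.ker (W.mkQ ∘ₗ K.subtype) = Submodule.comap K.subtype W := by
    rw [LinearMap.ker_comp, Submodule.ker_mkQ]
  rw [h2, h3] at h1
  have h4 := (Submodule.comapSubtypeEquivOfLe h).finrank_eq
  omega

/-- Step (3). -/
theorem HM_step {F V : Type} [Field F] [AddCommGroup V] [Module F V] [FiniteDimensional F V] {m : ℕ}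
    (_hm : 1 ≤ m) (X Y : Fin m → Module.End F V) (Z : Module.End F V) (hL : LH X Y Z)
    (hD : ∀ e e', Mop X Y e * Mop X Y e' - Mop X Y e' * Mop X Y e = om e e' • Z)
    (hnd : ∀ e : (Fin m → F) × (Fin m → F), (∀ e', om e e' = 0) → e = 0)
    (hZZ : Z * Z = 0) (hr : Module.finrank F (LinearMap.range Z) = 2)
    (hV : Module.finrank F V = m + 3)
    (l : ((Fin m → F) × (Fin m → F)) →ₗ[F] F) (e₀ f : (Fin m → F) × (Fin m → F))
    (hl : l e₀ = 1) (hf : ∀ e, om f e = l e)
    (hkill : ∀ e, l e = 0 → ∀ u, Mop X Y e (Z u) = 0) (v' : V) (ψ : V →ₗ[F] F) (hψ : ψ (Z v') = 1) :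
    Mop X Y f v' ∈ LinearMap.range Z ∧ ∀ x, Z x = 0 → ψ (Mop X Y f x) = 0 := by
  have hWK : LinearMap.range Z ≤ LinearMap.ker Z := by
    rintro _ ⟨u, rfl⟩
    rw [LinearMap.mem_ker]
    exact LinearMap.congr_fun hZZ u
  have hK0 : Module.finrank F (LinearMap.ker Z) = m + 1 := by
    have h1 := LinearMap.finrank_range_add_finrank_ker Z
    omega
  have hE : Module.finrank F ((Fin m → F) × (Fin m → F)) = 2 * m := by
    rw [Module.finrank_prod, Module.finrank_fin_fun]
    omega
  have hkl : 2 * m ≤ Module.finrank F (LinearMap.ker l) + 1 := by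
    have h1 := HM_count l ⊤ (fun e => Submodule.mem_top)
    rw [hE, finrank_top, Module.finrank_self] at h1
    exact h1
  -- first condition
  let T1 : LinearMap.ker l →ₗ[F] (V ⧸ LinearMap.range Z) :=
    (LinearMap.range Z).mkQ ∘ₗ ((HM_L X Y).flip v') ∘ₗ (LinearMap.ker l).subtype
  have hT1 : ∀ e : LinearMap.ker l, T1 e = (LinearMap.range Z).mkQ (Mop X Y e v') := fun e => rfl
  have hr1 : ∀ e : LinearMap.ker l, T1 e ∈ Submodule.map (LinearMap.range Z).mkQ (LinearMap.ker Z) := by
    intro e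
    rw [hT1]
    refine Submodule.mem_map_of_mem ?_
    rw [LinearMap.mem_ker, ← HM_comm hL]
    exact hkill _ e.2 _
  have hc1 := HM_count T1 _ hr1
  have hq := HM_quot _ _ hWK
  -- second condition
  let T2 : LinearMap.ker T1 →ₗ[F] Module.Dual F (LinearMap.ker Z) :=
    { toFun := fun e => ψ ∘ₗ (Mop X Y ((e : LinearMap.ker l) : (Fin m → F) × (Fin m → F))) ∘ₗ
        (LinearMap.ker Z).subtype
      map_add' := by
        intro e e'
        ext x
        have h1 : Mop X Y (((e + e' : LinearMap.ker T1) : LinearMap.ker l) :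
            (Fin m → F) × (Fin m → F)) =
            Mop X Y ((e : LinearMap.ker l) : (Fin m → F) × (Fin m → F)) +
            Mop X Y ((e' : LinearMap.ker l) : (Fin m → F) × (Fin m → F)) :=
          (HM_L X Y).map_add _ _
        show ψ (Mop X Y (((e + e' : LinearMap.ker T1) : LinearMap.ker l) :
            (Fin m → F) × (Fin m → F)) x) = ψ (Mop X Y ((e : LinearMap.ker l) :
              (Fin m → F) × (Fin m → F)) x) + ψ (Mop X Y ((e' : LinearMap.ker l) :
              (Fin m → F) × (Fin m → F)) x)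
        rw [h1, LinearMap.add_apply, map_add]
      map_smul' := by
        intro c e
        ext x
        have h1 : Mop X Y (((c • e : LinearMap.ker T1) : LinearMap.ker l) :
            (Fin m → F) × (Fin m → F)) =
            c • Mop X Y ((e : LinearMap.ker l) : (Fin m → F) × (Fin m → F)) :=
          (HM_L X Y).map_smul _ _
        show ψ (Mop X Y (((c • e : LinearMap.ker T1) : LinearMap.ker l) :
            (Fin m → F) × (Fin m → F)) x) = c • ψ (Mop X Y ((e : LinearMap.ker l) :
              (Fin m → F) × (Fin m → F)) x)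
        rw [h1, LinearMap.smul_apply, map_smul] }
  have hT2 : ∀ (e : LinearMap.ker T1) (x : LinearMap.ker Z), T2 e x =
      ψ (Mop X Y ((e : LinearMap.ker l) : (Fin m → F) × (Fin m → F)) x) := fun e x => rfl
  have hr2 : ∀ e : LinearMap.ker T1, T2 e ∈
      (Submodule.comap (LinearMap.ker Z).subtype (LinearMap.range Z)).dualAnnihilator := by
    intro e
    rw [Submodule.mem_dualAnnihilator]
    intro x hx
    rw [hT2]
    obtain ⟨u, hu⟩ := hx
    have hu' : Z u = (x : V) := hu
    rw [← hu', hkill _ e.1.2, map_zero]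
  have hc2 := HM_count (E := LinearMap.ker T1) (U := Module.Dual F (LinearMap.ker Z)) T2
    (Submodule.comap (LinearMap.ker Z).subtype (LinearMap.range Z)).dualAnnihilator hr2
  have hann := Subspace.finrank_add_finrank_dualAnnihilator_eq
    (Submodule.comap (LinearMap.ker Z).subtype (LinearMap.range Z))
  have hcs := (Submodule.comapSubtypeEquivOfLe hWK).finrank_eq
  have hpos : 0 < Module.finrank F (LinearMap.ker T2) := by omega
  have hnb : LinearMap.ker T2 ≠ ⊥ := by
    intro h
    rw [h, finrank_bot] at hpos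
    omega
  obtain ⟨e1, he1m, he1⟩ := (Submodule.ne_bot_iff _).mp hnb
  -- the element `e₁`
  obtain ⟨e₁, hne, hl1, hW1, hψ1⟩ : ∃ e₁ : (Fin m → F) × (Fin m → F), e₁ ≠ 0 ∧ l e₁ = 0 ∧
      Mop X Y e₁ v' ∈ LinearMap.range Z ∧ ∀ x, Z x = 0 → ψ (Mop X Y e₁ x) = 0 := by
    refine ⟨(e1 : LinearMap.ker l), ?_, ?_, ?_, ?_⟩
    · intro h0
      apply he1
      apply Subtype.ext
      apply Subtype.ext
      exact h0
    · exact (e1 : LinearMap.ker l).2
    · have h1 : T1 (e1 : LinearMap.ker l) = 0 := e1.2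
      rw [hT1] at h1
      exact (Submodule.Quotient.mk_eq_zero _).mp h1
    · intro x hx
      have h1 : T2 e1 = 0 := he1m
      have h2 := LinearMap.congr_fun h1 ⟨x, hx⟩
      exact h2
  have hom0 : ∀ e, l e = 0 → om e₁ e = 0 := by
    intro e he
    have h1 := LinearMap.congr_fun (hD e₁ e) v'
    have h2 : Mop X Y e₁ (Mop X Y e v') - Mop X Y e (Mop X Y e₁ v') = om e₁ e • Z v' := h1
    obtain ⟨u, hu⟩ := hW1
    rw [← hu, hkill e he u, sub_zero] at h2
    have h3 : ψ (Mop X Y e₁ (Mop X Y e v')) = 0 := by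
      apply hψ1
      rw [← HM_comm hL]
      exact hkill e he v'
    rw [h2, map_smul, hψ, smul_eq_mul, mul_one] at h3
    exact h3
  have hmul : ∀ e, om e₁ e = om e₁ e₀ * l e := by
    intro e
    have h1 : l (e + (-(l e)) • e₀) = 0 := by
      rw [map_add, map_smul, hl, smul_eq_mul]
      ring
    have h2 := hom0 _ h1
    rw [HM_om_lin] at h2
    linear_combination h2
  have heq : e₁ = (om e₁ e₀) • f := by
    have h1 : e₁ + (-(om e₁ e₀)) • f = 0 := by
      apply hnd
      intro e'
      rw [HM_om_lin', hf, hmul e']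
      ring
    rw [neg_smul] at h1
    exact add_neg_eq_zero.mp h1
  have hc : om e₁ e₀ ≠ 0 := by
    intro h0
    rw [h0, zero_smul] at heq
    exact hne heq
  have hf1 : f = (om e₁ e₀)⁻¹ • e₁ := by
    rw [eq_inv_smul_iff₀ hc]
    exact heq.symm
  have hMf : Mop X Y f = (om e₁ e₀)⁻¹ • Mop X Y e₁ := by
    have h1 : HM_L X Y f = (om e₁ e₀)⁻¹ • HM_L X Y e₁ := by
      rw [← map_smul, ← hf1]
    exact h1
  constructor
  · rw [hMf, LinearMap.smul_apply]
    exact Submodule.smul_mem _ _ hW1
  · intro x hx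
    rw [hMf, LinearMap.smul_apply, map_smul, hψ1 x hx, smul_zero]

/-- The borderline case `r = 2`. -/
theorem HM (hHK : HK_stmt) (hHD : HD_stmt) (hHE : HE_stmt) : HM_stmt := by
  intro F V _ _ _ _ _ m hm X Y Z hL hZZ hr hV
  obtain ⟨hD, hN⟩ := hHD F V m X Y Z hL
  obtain ⟨hiso, hnd, hrep⟩ := hHE F m
  have hZ0 : Z ≠ 0 := by
    rintro rfl
    rw [LinearMap.range_zero, finrank_bot] at hr
    omega
  obtain ⟨v, hv, hw⟩ := hHK F V m X Y Z hL hZZ hZ0
  have hWK : LinearMap.range Z ≤ LinearMap.ker Z := by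
    rintro _ ⟨u, rfl⟩
    rw [LinearMap.mem_ker]
    exact LinearMap.congr_fun hZZ u
  have hZZu : ∀ u, Z (Z u) = 0 := fun u => LinearMap.congr_fun hZZ u
  have hK0 : Module.finrank F (LinearMap.ker Z) = m + 1 := by
    have h1 := LinearMap.finrank_range_add_finrank_ker Z
    omega
  have hE : Module.finrank F ((Fin m → F) × (Fin m → F)) = 2 * m := by
    rw [Module.finrank_prod, Module.finrank_fin_fun]
    omega
  have hq := HM_quot _ _ hWK
  -- step (1)
  have hstep1 : ∃ e u, Mop X Y e (Z u) ≠ 0 := by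
    by_contra hcon
    push Not at hcon
    let T : ((Fin m → F) × (Fin m → F)) →ₗ[F] (V ⧸ LinearMap.range Z) :=
      (LinearMap.range Z).mkQ ∘ₗ ((HM_L X Y).flip v)
    have hT : ∀ e, T e = (LinearMap.range Z).mkQ (Mop X Y e v) := fun e => rfl
    have hr1 : ∀ e, T e ∈ Submodule.map (LinearMap.range Z).mkQ (LinearMap.ker Z) := by
      intro e
      rw [hT]
      refine Submodule.mem_map_of_mem ?_
      rw [LinearMap.mem_ker, ← HM_comm hL]
      exact hcon e v
    have hc := HM_count T _ hr1
    have hi := hiso (LinearMap.ker T) (by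
      intro e he e' he'
      rw [LinearMap.mem_ker, hT] at he he'
      obtain ⟨u, hu⟩ := (Submodule.Quotient.mk_eq_zero _).mp he
      obtain ⟨u', hu'⟩ := (Submodule.Quotient.mk_eq_zero _).mp he'
      have h1 := LinearMap.congr_fun (hD e e') v
      have h2 : Mop X Y e (Mop X Y e' v) - Mop X Y e' (Mop X Y e v) = om e e' • Z v := h1
      rw [← hu, ← hu', hcon, hcon, sub_zero] at h2
      rcases smul_eq_zero.mp h2.symm with h3 | h3
      · exact h3
      · exact absurd h3 hv)
    omega
  obtain ⟨e₀', v₂, he₀'⟩ := hstep1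
  -- linear independence of `Z v`, `Z v₂`
  have hlin : ∀ a b : F, a • Z v + b • Z v₂ = 0 → a = 0 ∧ b = 0 := by
    intro a b hab
    have hb : b = 0 := by
      by_contra hb
      have h1 := congrArg (Mop X Y e₀') hab
      rw [map_add, map_smul, map_smul, hw, smul_zero, zero_add, map_zero] at h1
      rcases smul_eq_zero.mp h1 with h2 | h2
      · exact hb h2
      · exact he₀' h2
    rw [hb, zero_smul, add_zero] at hab
    rcases smul_eq_zero.mp hab with h2 | h2
    · exact ⟨h2, hb⟩
    · exact absurd h2 hv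
  have hspan : ∀ u, ∃ a b : F, Z u = a • Z v + b • Z v₂ := by
    have hli : LinearIndependent F ![Z v, Z v₂] := by
      rw [LinearIndependent.pair_iff]
      exact hlin
    have hsp : Submodule.span F (Set.range ![Z v, Z v₂]) = LinearMap.range Z := by
      apply Submodule.eq_of_le_of_finrank_eq
      · rw [Submodule.span_le]
        rintro _ ⟨i, rfl⟩
        fin_cases i
        · exact ⟨v, rfl⟩
        · exact ⟨v₂, rfl⟩
      · rw [finrank_span_eq_card hli, hr]
        rfl
    intro u
    have h1 : Z u ∈ Submodule.span F (Set.range ![Z v, Z v₂]) := by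
      rw [hsp]
      exact ⟨u, rfl⟩
    rw [Matrix.range_cons, Matrix.range_cons, Matrix.range_empty, Set.union_empty,
      Set.singleton_union, Submodule.mem_span_pair] at h1
    obtain ⟨a, b, hab⟩ := h1
    exact ⟨a, b, hab.symm⟩
  obtain ⟨ψ, hψ⟩ : ∃ ψ : V →ₗ[F] F, ψ (Z v) = 1 := by
    by_contra hcon
    push Not at hcon
    apply hv
    rw [← Module.forall_dual_apply_eq_zero_iff F]
    intro θ
    by_contra hθ
    apply hcon ((θ (Z v))⁻¹ • θ)
    rw [LinearMap.smul_apply, smul_eq_mul, inv_mul_cancel₀ hθ]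
  -- the form `l`
  have hMw2 : ∀ e, Mop X Y e (Z v₂) = ψ (Mop X Y e (Z v₂)) • Z v := by
    intro e
    obtain ⟨a, b, hab⟩ := hspan (Mop X Y e v₂)
    rw [← HM_comm hL] at hab
    have hpow : ∀ k : ℕ, ((Mop X Y e) ^ (k + 1)) (Z v₂) = b ^ k • (a • Z v + b • Z v₂) := by
      intro k
      induction k with
      | zero => rw [zero_add, pow_one, pow_zero, one_smul, hab]
      | succ k ih =>
        rw [pow_succ' (Mop X Y e) (k + 1), Module.End.mul_apply, ih, map_smul, map_add, map_smul,
          map_smul, hw, smul_zero, zero_add, hab, smul_smul, ← pow_succ]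
    have hb : b = 0 := by
      obtain ⟨k, hk⟩ := hN e 0
      rw [zero_smul, add_zero] at hk
      have h1 := hpow k
      rw [pow_succ, hk, zero_mul, LinearMap.zero_apply, smul_add, smul_smul, smul_smul] at h1
      have h2 := (hlin _ _ h1.symm).2
      rcases mul_eq_zero.mp h2 with h3 | h3
      · by_contra hb
        exact pow_ne_zero k hb h3
      · exact h3
    rw [hb, zero_smul, add_zero] at hab
    rw [hab, map_smul, hψ, smul_eq_mul, mul_one]
  let l : ((Fin m → F) × (Fin m → F)) →ₗ[F] F := ψ ∘ₗ ((HM_L X Y).flip (Z v₂))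
  have hl : ∀ e, l e = ψ (Mop X Y e (Z v₂)) := fun e => rfl
  have hMl : ∀ e, Mop X Y e (Z v₂) = l e • Z v := by
    intro e
    rw [hl]
    exact hMw2 e
  have hl0 : l e₀' ≠ 0 := by
    intro h0
    apply he₀'
    rw [hMl, h0, zero_smul]
  obtain ⟨e₀, he₀⟩ : ∃ e₀, l e₀ = 1 := by
    refine ⟨(l e₀')⁻¹ • e₀', ?_⟩
    rw [map_smul, smul_eq_mul, inv_mul_cancel₀ hl0]
  obtain ⟨f, hf⟩ := hrep l
  have hkill : ∀ e, l e = 0 → ∀ u, Mop X Y e (Z u) = 0 := by
    intro e he u
    obtain ⟨a, b, hab⟩ := hspan u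
    rw [hab, map_add, map_smul, map_smul, hw, hMl, he, zero_smul, smul_zero, smul_zero, add_zero]
  have hstep := HM_step hm X Y Z hL hD hnd hZZ hr hV l e₀ f he₀ hf hkill
  have hfv := (hstep v ψ hψ).1
  have hfv2 : Mop X Y f v₂ ∈ LinearMap.range Z := by
    obtain ⟨θ, hθ⟩ : ∃ θ : V →ₗ[F] F, θ (Z v₂) = 1 := by
      by_contra hcon
      push Not at hcon
      have h0 : Z v₂ = 0 := by
        rw [← Module.forall_dual_apply_eq_zero_iff F]
        intro θ
        by_contra hθ
        apply hcon ((θ (Z v₂))⁻¹ • θ)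
        rw [LinearMap.smul_apply, smul_eq_mul, inv_mul_cancel₀ hθ]
      have h1 := (hlin 0 1 (by rw [h0, smul_zero, zero_smul, add_zero])).2
      exact one_ne_zero h1
    exact (hstep v₂ θ hθ).1
  have hfK : ∀ x, Z x = 0 → Mop X Y f x = 0 := by
    intro x hx
    rw [← Module.forall_dual_apply_eq_zero_iff F]
    intro θ
    have h1 : (θ + (1 - θ (Z v)) • ψ) (Z v) = 1 := by
      rw [LinearMap.add_apply, LinearMap.smul_apply, hψ, smul_eq_mul]
      ring
    have h2 := (hstep v _ h1).2 x hx
    have h3 := (hstep v ψ hψ).2 x hx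
    rw [LinearMap.add_apply, LinearMap.smul_apply, h3, smul_zero, add_zero] at h2
    exact h2
  obtain ⟨u1, hu1⟩ := hfv
  obtain ⟨a, c, hac⟩ := hspan u1
  obtain ⟨u2, hu2⟩ := hfv2
  obtain ⟨b, d, hbd⟩ := hspan u2
  rw [hu1] at hac
  rw [hu2] at hbd
  have homf : om e₀ f = -1 := by
    rw [HM_om_neg, hf, he₀]
  have hc1 : c = -1 := by
    have h1 := LinearMap.congr_fun (hD e₀ f) v
    have h2 : Mop X Y e₀ (Mop X Y f v) - Mop X Y f (Mop X Y e₀ v) = om e₀ f • Z v := h1
    have h3 : Mop X Y f (Mop X Y e₀ v) = 0 := by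
      apply hfK
      rw [← HM_comm hL, hw]
    rw [h3, sub_zero, hac, map_add, map_smul, map_smul, hw, hMl, he₀, one_smul, smul_zero, zero_add,
      homf] at h2
    have h4 : (c + 1) • Z v + (0 : F) • Z v₂ = 0 := by
      rw [add_smul, h2, one_smul, neg_smul, one_smul, zero_smul, add_zero, neg_add_cancel]
    have h5 := (hlin _ _ h4).1
    linear_combination h5
  have hc2 : c = 1 := by
    have h1 := LinearMap.congr_fun (hD e₀ f) v₂
    have h2 : Mop X Y e₀ (Mop X Y f v₂) - Mop X Y f (Mop X Y e₀ v₂) = om e₀ f • Z v₂ := h1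
    have h3 : Mop X Y f (Mop X Y e₀ v₂ - v) = 0 := by
      apply hfK
      rw [map_sub, ← HM_comm hL, hMl, he₀, one_smul, sub_self]
    rw [map_sub, sub_eq_zero] at h3
    rw [h3, hac, hbd, map_add, map_smul, map_smul, hw, hMl, he₀, one_smul, smul_zero, zero_add,
      homf] at h2
    have h4 : (d - a) • Z v + (1 - c) • Z v₂ = 0 := by
      have h5 : d • Z v - (a • Z v + c • Z v₂) + Z v₂ = 0 := by
        rw [h2, neg_smul, one_smul, neg_add_cancel]
      rw [sub_smul, sub_smul, one_smul]
      rw [← h5]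
      abel
    have h5 := (hlin _ _ h4).2
    linear_combination -h5
  have h2 : (2 : F) = 0 := by
    rw [hc1] at hc2
    linear_combination -hc2
  exact two_ne_zero h2

end Pool.Agent.PR
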