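import Pool.Agent.helper5.PR.SpecK

set_option autoImplicit false

namespace Pool.Agent.PR

open Matrix

/-- A finitely generated group has finitely many homomorphisms to a finite group. -/
theorem K_HOM : K_HOM_stmt := by
  intro Γ _ hΓ Q _ _
  obtain ⟨S, hS⟩ := (Group.fg_def.mp hΓ)
  refine Finite.of_injective (fun (f : Γ →* Q) (s : S) => f s) ?_
  intro f g h
  refine MonoidHom.eq_of_eqOn_dense hS ?_
  intro s hs
  exact congrFun h ⟨s, hs⟩

end Pool.Agent.PR
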