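import Pool.Agent.helper5.PR.SpecS

set_option autoImplicit false

namespace Pool.Agent.PR

open Matrix

/-- reduction modulo `ℓ ^ k` -/
noncomputable def S_ONE_red {ℓ : ℕ} [Fact ℓ.Prime] (ι : Type) [Fintype ι] [DecidableEq ι] (k : ℕ) :
    GL ι ℤ_[ℓ] →* GL ι (ZMod (ℓ ^ k)) :=
  Matrix.GeneralLinearGroup.map (PadicInt.toZModPow k)

theorem S_ONE_red_coe {ℓ : ℕ} [Fact ℓ.Prime] {ι : Type} [Fintype ι] [DecidableEq ι] (k : ℕ)
    (A : GL ι ℤ_[ℓ]) (i j : ι) : (S_ONE_red ι k A : Matrix ι ι (ZMod (ℓ ^ k))) i j =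
      PadicInt.toZModPow k ((A : Matrix ι ι ℤ_[ℓ]) i j) := rfl

theorem S_ONE_red_eq {ℓ : ℕ} [Fact ℓ.Prime] {ι : Type} [Fintype ι] [DecidableEq ι] (k : ℕ)
    (A B : GL ι ℤ_[ℓ]) : S_ONE_red ι k A = S_ONE_red ι k B ↔
      ∀ i j, PadicInt.toZModPow k ((A : Matrix ι ι ℤ_[ℓ]) i j) =
        PadicInt.toZModPow k ((B : Matrix ι ι ℤ_[ℓ]) i j) := by
  constructor
  · intro h i j
    rw [← S_ONE_red_coe, ← S_ONE_red_coe, h]
  · intro h
    apply Units.ext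
    ext i j
    rw [S_ONE_red_coe, S_ONE_red_coe, h]

theorem S_ONE_red_one {ℓ : ℕ} [Fact ℓ.Prime] {ι : Type} [Fintype ι] [DecidableEq ι] (k : ℕ)
    (A : GL ι ℤ_[ℓ]) : S_ONE_red ι k A = 1 ↔
      ∃ X : Matrix ι ι ℤ_[ℓ], (A : Matrix ι ι ℤ_[ℓ]) - 1 = ((ℓ : ℤ_[ℓ]) ^ k) • X := by
  have h0 : (1 : GL ι (ZMod (ℓ ^ k))) = S_ONE_red ι k 1 := (map_one _).symm
  rw [h0, S_ONE_red_eq]
  constructor
  · intro h
    have h1 : ∀ i j, ∃ x : ℤ_[ℓ], ((A : Matrix ι ι ℤ_[ℓ]) - 1) i j = (ℓ : ℤ_[ℓ]) ^ k * x := by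
      intro i j
      have h2 : PadicInt.toZModPow k (((A : Matrix ι ι ℤ_[ℓ]) - 1) i j) = 0 := by
        rw [Matrix.sub_apply, map_sub, h i j]
        exact sub_self _
      rw [← RingHom.mem_ker, PadicInt.ker_toZModPow, Ideal.mem_span_singleton] at h2
      exact h2
    choose X hX using h1
    refine ⟨Matrix.of X, ?_⟩
    ext i j
    rw [hX i j, Matrix.smul_apply, smul_eq_mul]
    rfl
  · rintro ⟨X, hX⟩ i j
    have h1 : (A : Matrix ι ι ℤ_[ℓ]) i j = (1 : Matrix ι ι ℤ_[ℓ]) i j + (ℓ : ℤ_[ℓ]) ^ k * X i j := by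
      have h2 := congrFun (congrFun hX i) j
      rw [Matrix.sub_apply, Matrix.smul_apply, smul_eq_mul] at h2
      rw [← h2]
      ring
    have h3 : PadicInt.toZModPow k ((ℓ : ℤ_[ℓ]) ^ k * X i j) = 0 := by
      rw [← RingHom.mem_ker, PadicInt.ker_toZModPow, Ideal.mem_span_singleton]
      exact ⟨_, rfl⟩
    rw [h1, map_add, h3, add_zero]
    rfl

/-- one step of the `ℓ`-th power -/
theorem S_ONE_step {ℓ : ℕ} [Fact ℓ.Prime] {ι : Type} [Fintype ι] [DecidableEq ι] (s : ℕ) (hs : 1 ≤ s)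
    (A X : Matrix ι ι ℤ_[ℓ]) (h : A - 1 = ((ℓ : ℤ_[ℓ]) ^ s) • X) :
    ∃ Y, A ^ ℓ - 1 = ((ℓ : ℤ_[ℓ]) ^ (s + 1)) • Y := by
  have h1 : ∀ i : ℕ, ∃ Z : Matrix ι ι ℤ_[ℓ], A ^ i = 1 + (ℓ : ℤ_[ℓ]) • Z := by
    intro i
    refine ⟨((ℓ : ℤ_[ℓ]) ^ (s - 1)) • (X * ∑ j ∈ Finset.range i, A ^ j), ?_⟩
    have h2 := mul_geom_sum A i
    rw [h] at h2
    rw [smul_smul, ← pow_succ', Nat.sub_add_cancel hs, ← smul_mul_assoc, h2]
    abel
  choose Z hZ using h1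
  have h3 := mul_geom_sum A ℓ
  refine ⟨X * (1 + ∑ j ∈ Finset.range ℓ, Z j), ?_⟩
  have h4 : ∑ j ∈ Finset.range ℓ, A ^ j = (ℓ : ℤ_[ℓ]) • (1 + ∑ j ∈ Finset.range ℓ, Z j) := by
    rw [Finset.sum_congr rfl (fun j _ => hZ j), Finset.sum_add_distrib, ← Finset.smul_sum,
      Finset.sum_const, Finset.card_range, smul_add]
    congr 1
  rw [← h3, h, h4, smul_mul_assoc, mul_smul_comm, smul_smul, ← pow_succ]

theorem S_ONE_pow {ℓ : ℕ} [Fact ℓ.Prime] {ι : Type} [Fintype ι] [DecidableEq ι]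
    (A X : Matrix ι ι ℤ_[ℓ]) (h : A - 1 = ((ℓ : ℤ_[ℓ]) ^ 1) • X) (t : ℕ) :
    ∃ Y, A ^ (ℓ ^ t) - 1 = ((ℓ : ℤ_[ℓ]) ^ (t + 1)) • Y := by
  induction t with
  | zero => exact ⟨X, by rw [pow_zero, pow_one, h]⟩
  | succ t ih =>
    obtain ⟨Y, hY⟩ := ih
    obtain ⟨Y', hY'⟩ := S_ONE_step (t + 1) (by omega) _ Y hY
    refine ⟨Y', ?_⟩
    rw [pow_succ ℓ t, pow_mul]
    exact hY'

/-- arithmetic -/
theorem S_ONE_arith (ℓ c t i j : ℕ) (hl : ℓ.Prime) (hc : 1 ≤ c) (h : j ∣ c * ℓ ^ t)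
    (hi : ¬ ℓ ^ i ∣ j) : j ∣ ℓ ^ i * c := by
  have hj : j ≠ 0 := by
    rintro rfl
    have h1 := Nat.eq_zero_of_zero_dvd h
    have h2 : 0 < c * ℓ ^ t := Nat.mul_pos hc (pow_pos hl.pos t)
    omega
  obtain ⟨a, j', hj', rfl⟩ := Nat.exists_eq_pow_mul_and_not_dvd hj ℓ hl.ne_one
  have ha : a < i := by
    by_contra hcon
    push Not at hcon
    exact hi ((pow_dvd_pow ℓ hcon).trans (Nat.dvd_mul_right _ _))
  have hcop : Nat.Coprime j' (ℓ ^ t) := by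
    apply Nat.Coprime.pow_right
    exact ((Nat.Prime.coprime_iff_not_dvd hl).mpr hj').symm
  have h1 : j' ∣ c := hcop.dvd_of_dvd_mul_right ((Nat.dvd_mul_left _ _).trans h)
  exact Nat.mul_dvd_mul (pow_dvd_pow ℓ ha.le) h1

/-- an infinite `ℓ`-adic representation makes the levels unbounded at `ℓ` -/
theorem S_ONE (hIDX : S_IDX_stmt) : S_ONE_stmt := by
  intro n hn Λ _ S ℓ _ ι _ _ f hf
  by_contra hcon
  unfold Unb at hcon
  push Not at hcon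
  obtain ⟨i₀, hi⟩ := hcon
  have hl : ℓ.Prime := Fact.out
  have hfin : ∀ k : ℕ, Finite (GL ι (ZMod (ℓ ^ k))) := by
    intro k
    have : NeZero (ℓ ^ k) := ⟨pow_ne_zero k hl.ne_zero⟩
    infer_instance
  let φ : (k : ℕ) → Λ →* GL ι (ZMod (ℓ ^ k)) := fun k => (S_ONE_red ι k).comp f
  have hφ : ∀ k, (φ k).ker.FiniteIndex := by
    intro k
    have := hfin k
    exact Subgroup.finiteIndex_ker (φ k)
  let M : ℕ → FiniteIndexNormalSubgroup Λ := fun k =>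
    { toSubgroup := (φ k).ker, isNormal' := inferInstance, isFiniteIndex' := hφ k }
  have := hfin 1
  have hc : 1 ≤ Nat.card (GL ι (ZMod (ℓ ^ 1))) := Nat.card_pos
  have hlev : ∀ k, 1 ≤ k → lev hn S (M k) ∣ ℓ ^ i₀ * Nat.card (GL ι (ZMod (ℓ ^ 1))) := by
    intro k hk
    refine S_ONE_arith ℓ _ (k - 1) i₀ _ hl hc ?_ (hi (M k))
    obtain ⟨l, hl'⟩ := QuotientGroup.mk_surjective (S.g (M k) (e01 n hn))
    have h1 : lev hn S (M k) = orderOf (φ k l) := by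
      unfold lev
      rw [← hl']
      have h2 := orderOf_injective (QuotientGroup.kerLift (φ k)) (QuotientGroup.kerLift_injective (φ k))
        (l : Λ ⧸ (φ k).ker)
      rw [QuotientGroup.kerLift_mk] at h2
      exact h2.symm
    rw [h1]
    apply orderOf_dvd_of_pow_eq_one
    -- reduce to matrices over `ℤ_ℓ`
    have h3 : S_ONE_red ι 1 (f l ^ Nat.card (GL ι (ZMod (ℓ ^ 1)))) = 1 := by
      rw [map_pow]
      exact pow_card_eq_one'
    obtain ⟨X, hX⟩ := (S_ONE_red_one 1 _).mp h3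
    obtain ⟨Y, hY⟩ := S_ONE_pow _ X hX (k - 1)
    have h4 : S_ONE_red ι k ((f l ^ Nat.card (GL ι (ZMod (ℓ ^ 1)))) ^ (ℓ ^ (k - 1))) = 1 := by
      rw [S_ONE_red_one]
      refine ⟨Y, ?_⟩
      rw [Nat.sub_add_cancel hk] at hY
      rw [← hY]
      rfl
    show (S_ONE_red ι k (f l)) ^ (Nat.card (GL ι (ZMod (ℓ ^ 1))) * ℓ ^ (k - 1)) = 1
    rw [← map_pow, pow_mul]
    exact h4
  obtain ⟨C, hC⟩ := hIDX n hn Λ S (ℓ ^ i₀ * Nat.card (GL ι (ZMod (ℓ ^ 1))))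
    (Nat.mul_pos (pow_pos hl.pos _) hc)
  have hidx : ∀ k, 1 ≤ k → (φ k).ker.index ≤ C := fun k hk => hC (M k) (hlev k hk)
  -- many elements
  have : Infinite (Set.range f) := hf.to_subtype
  obtain ⟨g⟩ : Nonempty (Fin (C + 1) ↪ Set.range f) := by
    refine ⟨?_⟩
    exact (Fin.valEmbedding.trans (Infinite.natEmbedding (Set.range f)))
  choose g' hg' using fun i => (g i).2
  have hdist : ∀ i j : Fin (C + 1), i ≠ j → ∃ k : ℕ, S_ONE_red ι k (f (g' i)) ≠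
      S_ONE_red ι k (f (g' j)) := by
    intro i j hij
    by_contra hcon
    push Not at hcon
    apply hij
    apply g.injective
    apply Subtype.ext
    rw [← hg' i, ← hg' j]
    apply Units.ext
    ext a b
    rw [← PadicInt.ext_of_toZModPow]
    intro k
    exact (S_ONE_red_eq k _ _).mp (hcon k) a b
  have hk : ∀ p : Fin (C + 1) × Fin (C + 1), ∃ k : ℕ, p.1 ≠ p.2 → S_ONE_red ι k (f (g' p.1)) ≠
      S_ONE_red ι k (f (g' p.2)) := by
    intro p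
    by_cases hp : p.1 = p.2
    · exact ⟨0, fun h => absurd hp h⟩
    · obtain ⟨k, hk⟩ := hdist p.1 p.2 hp
      exact ⟨k, fun _ => hk⟩
  choose kk hkk using hk
  set K := Finset.univ.sup kk + 1 with hK
  have hinj : Function.Injective (fun i : Fin (C + 1) => ((g' i : Λ) : Λ ⧸ (φ K).ker)) := by
    intro i j hij
    by_contra hne
    have h1 : φ K (g' i) = φ K (g' j) := by
      have h2 := congrArg (QuotientGroup.kerLift (φ K)) hij
      simpa using h2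
    have h3 : S_ONE_red ι K (f (g' i)) = S_ONE_red ι K (f (g' j)) := h1
    rw [S_ONE_red_eq] at h3
    apply hkk (i, j) hne
    rw [S_ONE_red_eq]
    intro a b
    have hle : kk (i, j) ≤ K := by
      have h4 : kk (i, j) ≤ Finset.univ.sup kk := Finset.le_sup (Finset.mem_univ (i, j))
      omega
    rw [← PadicInt.cast_toZModPow _ _ hle, ← PadicInt.cast_toZModPow _ _ hle, h3 a b]
  have : Finite (Λ ⧸ (φ K).ker) := by
    have := hφ K
    infer_instance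
  have h5 := Nat.card_le_card_of_injective _ hinj
  rw [Nat.card_eq_fintype_card, Fintype.card_fin] at h5
  have h6 := hidx K (by omega)
  unfold Subgroup.index at h6
  omega

end Pool.Agent.PR
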