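import Pool.Agent.helper5.PR.SpecS

set_option autoImplicit false

namespace Pool.Agent.PR

open Matrix

/-- Membership in `ℤ[1/m]`. -/
theorem S_ZI : S_ZI_stmt := by
  intro m hm x
  constructor
  · intro hx
    induction hx using Algebra.adjoin_induction with
    | mem x hx =>
      rw [Set.mem_singleton_iff] at hx
      refine ⟨1, ?_⟩
      rw [hx, pow_one, Rat.inv_natCast_den]
      rw [if_neg (by omega)]
    | algebraMap r =>
      refine ⟨0, ?_⟩
      rw [eq_intCast, Rat.den_intCast, pow_zero]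
    | add x y _ _ hx hy =>
      obtain ⟨k, hk⟩ := hx
      obtain ⟨j, hj⟩ := hy
      refine ⟨k + j, (Rat.add_den_dvd x y).trans ?_⟩
      rw [pow_add]
      exact Nat.mul_dvd_mul hk hj
    | mul x y _ _ hx hy =>
      obtain ⟨k, hk⟩ := hx
      obtain ⟨j, hj⟩ := hy
      refine ⟨k + j, (Rat.mul_den_dvd x y).trans ?_⟩
      rw [pow_add]
      exact Nat.mul_dvd_mul hk hj
  · rintro ⟨k, c, hc⟩
    have hm0 : (m : ℚ) ≠ 0 := by
      exact_mod_cast (by omega : m ≠ 0)
    have hd0 : (x.den : ℚ) ≠ 0 := by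
      exact_mod_cast x.den_ne_zero
    have h1 : x = ((x.num * (c : ℤ) : ℤ) : ℚ) * ((m : ℚ)⁻¹) ^ k := by
      have h2 : (m : ℚ) ^ k = x.den * c := by exact_mod_cast hc
      have hc0 : (c : ℚ) ≠ 0 := by
        intro h0
        rw [h0, mul_zero] at h2
        exact pow_ne_zero k hm0 h2
      rw [inv_pow, h2]
      push_cast
      rw [mul_inv, ← mul_assoc, mul_assoc (x.num : ℚ), mul_comm (c : ℚ), ← mul_assoc,
        mul_assoc _ (c : ℚ), mul_inv_cancel₀ hc0, mul_one, ← div_eq_mul_inv, Rat.num_div_den]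
    rw [h1]
    have e1 : ((x.num * (c : ℤ) : ℤ) : ℚ) ∈ Algebra.adjoin ℤ {((m : ℚ))⁻¹} := by
      have e2 := Subalgebra.algebraMap_mem (Algebra.adjoin ℤ {((m : ℚ))⁻¹}) (x.num * (c : ℤ))
      rwa [eq_intCast] at e2
    have e3 : (m : ℚ)⁻¹ ∈ Algebra.adjoin ℤ {((m : ℚ))⁻¹} :=
      Algebra.subset_adjoin (Set.mem_singleton _)
    exact Subalgebra.mul_mem _ e1 (Subalgebra.pow_mem _ e3 k)

end Pool.Agent.PR
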